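import Pool.Agent.Lib.FW.SpecFr

/-!
# S_FrC: a Frobenius element which fixes a larger field
-/

open scoped Pointwise nonZeroDivisors

noncomputable section

namespace Pool.Agent.FW

open Pool.Agent.MuZ NumberField IsDedekindDomain

/-- a nonzero prime of `ZZ` contains a nonzero integer -/
private lemma FrC_int (P : Ideal ZZ) (hP0 : P ≠ ⊥) : ∃ n : ℤ, n ≠ 0 ∧ (n : ZZ) ∈ P := by
  obtain ⟨x, hx, hx0⟩ := Submodule.exists_mem_ne_zero_of_ne_bot hP0
  have h1 : IsIntegral ℤ x := by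
    have h2 : IsIntegral ℤ (x : Om) := x.2
    exact (isIntegral_algebraMap_iff (A := ZZ) (B := Om) (R := ℤ) Subtype.val_injective).1 h2
  have h3 := Ideal.comap_ne_bot_of_integral_mem hx0 hx h1
  obtain ⟨n, hn, hn0⟩ := Submodule.exists_mem_ne_zero_of_ne_bot h3
  refine ⟨n, hn0, ?_⟩
  have h4 := Ideal.mem_comap.1 hn
  simpa using h4

private lemma FrC_comap_ne (K : IntermediateField ℚ Om) [NumberField K] (P : Ideal ZZ)
    (hP0 : P ≠ ⊥) : P.comap (iO K) ≠ ⊥ := by
  obtain ⟨n, hn0, hn⟩ := FrC_int P hP0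
  intro h
  have h1 : ((n : ℤ) : 𝓞 K) ∈ P.comap (iO K) := by
    rw [Ideal.mem_comap, map_intCast]
    exact hn
  rw [h, Ideal.mem_bot] at h1
  exact hn0 (by exact_mod_cast h1)

private lemma FrC_fin (K : IntermediateField ℚ Om) [NumberField K] (P : Ideal ZZ)
    (hP0 : P ≠ ⊥) : Finite (𝓞 K ⧸ P.comap (iO K)) :=
  Ring.HasFiniteQuotients.finiteQuotient (FrC_comap_ne K P hP0)

private lemma FrC_max (K : IntermediateField ℚ Om) [NumberField K] (P : Ideal ZZ)
    (hP : P.IsPrime) (hP0 : P ≠ ⊥) : (P.comap (iO K)).IsMaximal :=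
  (Ideal.IsPrime.comap (iO K) : (P.comap (iO K)).IsPrime).isMaximal (FrC_comap_ne K P hP0)

/-- the degree of the residue extension -/
private lemma FrC_deg (K E : IntermediateField ℚ Om) [NumberField K] [NumberField E] (h : K ≤ E)
    (P : Ideal ZZ) (hP : P.IsPrime) (hP0 : P ≠ ⊥) :
    ∃ f : ℕ, 0 < f ∧
      Nat.card (𝓞 E ⧸ P.comap (iO E)) = Nat.card (𝓞 K ⧸ P.comap (iO K)) ^ f := by
  have hKm := FrC_max K P hP hP0
  have hEm := FrC_max E P hP hP0
  have hKf := FrC_fin K P hP0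
  have hEf := FrC_fin E P hP0
  let _ : Field (𝓞 K ⧸ P.comap (iO K)) := Ideal.Quotient.field _
  let _ : Field (𝓞 E ⧸ P.comap (iO E)) := Ideal.Quotient.field _
  let φ : 𝓞 K →+* 𝓞 E :=
    RingOfIntegers.mapRingHom (IntermediateField.inclusion h).toRingHom
  have hφ : ∀ x : 𝓞 K, iO E (φ x) = iO K x := fun x => rfl
  have hle : P.comap (iO K) ≤ (P.comap (iO E)).comap φ := by
    intro x hx
    rw [Ideal.mem_comap, Ideal.mem_comap, hφ]
    exact hx
  let ψ : (𝓞 K ⧸ P.comap (iO K)) →+* (𝓞 E ⧸ P.comap (iO E)) :=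
    Ideal.quotientMap (P.comap (iO E)) φ hle
  let _ : Algebra (𝓞 K ⧸ P.comap (iO K)) (𝓞 E ⧸ P.comap (iO E)) := ψ.toAlgebra
  have hmf : Module.Finite (𝓞 K ⧸ P.comap (iO K)) (𝓞 E ⧸ P.comap (iO E)) :=
    Module.Finite.of_finite
  refine ⟨Module.finrank (𝓞 K ⧸ P.comap (iO K)) (𝓞 E ⧸ P.comap (iO E)),
    Module.finrank_pos, ?_⟩
  exact Module.natCard_eq_pow_finrank

theorem tFrC : S_FrC := by
  intro K E _ _ hKE P hP hP0
  obtain ⟨f, hf, hcard⟩ := FrC_deg K E hKE P hP hP0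
  have hEm := FrC_max E P hP hP0
  have hKf := FrC_fin K P hP0
  have hEf := FrC_fin E P hP0
  intro σ hσ hσE
  have hle1 : Nat.card (𝓞 K ⧸ P.comap (iO K)) ≤ Nat.card (𝓞 E ⧸ P.comap (iO E)) := by
    rw [hcard]
    exact Nat.le_self_pow hf.ne' _
  have hnt : Nontrivial (𝓞 K ⧸ P.comap (iO K)) := by
    rw [Ideal.Quotient.nontrivial_iff]
    exact (FrC_max K P hP hP0).ne_top
  have hone : 1 < Nat.card (𝓞 K ⧸ P.comap (iO K)) := Finite.one_lt_card
  have hroot : ∀ y : 𝓞 E ⧸ P.comap (iO E),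
      y ^ Nat.card (𝓞 K ⧸ P.comap (iO K)) = y := by
    intro y
    obtain ⟨x, rfl⟩ := Ideal.Quotient.mk_surjective y
    rw [← map_pow, Ideal.Quotient.eq, Ideal.mem_comap, map_sub, map_pow]
    have h1 := hσ.2 (iO E x)
    have h2 : σ • (iO E x) = iO E x := by
      apply Subtype.ext
      exact (IntermediateField.mem_fixingSubgroup_iff E σ).1 hσE _ (x : E).2
    rw [h2] at h1
    have h3 := P.neg_mem h1
    rwa [neg_sub] at h3
  have hle2 : Nat.card (𝓞 E ⧸ P.comap (iO E)) ≤ Nat.card (𝓞 K ⧸ P.comap (iO K)) := by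
    let _ : Field (𝓞 E ⧸ P.comap (iO E)) := Ideal.Quotient.field _
    let _ : Fintype (𝓞 E ⧸ P.comap (iO E)) := Fintype.ofFinite _
    classical
    set q := Nat.card (𝓞 K ⧸ P.comap (iO K)) with hqdef
    have hne : (Polynomial.X ^ q - Polynomial.X : Polynomial (𝓞 E ⧸ P.comap (iO E))) ≠ 0 :=
      FiniteField.X_pow_card_sub_X_ne_zero _ hone
    have hdeg : (Polynomial.X ^ q - Polynomial.X :
        Polynomial (𝓞 E ⧸ P.comap (iO E))).natDegree = q :=
      FiniteField.X_pow_card_sub_X_natDegree_eq _ hone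
    have hsub : (Finset.univ : Finset (𝓞 E ⧸ P.comap (iO E))) ⊆
        (Polynomial.X ^ q - Polynomial.X :
          Polynomial (𝓞 E ⧸ P.comap (iO E))).roots.toFinset := by
      intro y _
      rw [Multiset.mem_toFinset, Polynomial.mem_roots hne, Polynomial.IsRoot.def,
        Polynomial.eval_sub, Polynomial.eval_pow, Polynomial.eval_X, hroot y, sub_self]
    rw [Nat.card_eq_fintype_card, ← Finset.card_univ]
    calc (Finset.univ : Finset (𝓞 E ⧸ P.comap (iO E))).card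
        ≤ (Polynomial.X ^ q - Polynomial.X :
          Polynomial (𝓞 E ⧸ P.comap (iO E))).roots.toFinset.card := Finset.card_le_card hsub
      _ ≤ (Polynomial.X ^ q - Polynomial.X :
          Polynomial (𝓞 E ⧸ P.comap (iO E))).roots.card := Multiset.toFinset_card_le _
      _ ≤ q := by
        have h4 := Polynomial.card_roots' (Polynomial.X ^ q - Polynomial.X :
          Polynomial (𝓞 E ⧸ P.comap (iO E)))
        rw [hdeg] at h4
        exact h4
  have heq : Nat.card (𝓞 E ⧸ P.comap (iO E)) = Nat.card (𝓞 K ⧸ P.comap (iO K)) :=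
    le_antisymm hle2 hle1
  refine ⟨heq, hσE, ?_⟩
  intro x
  rw [heq]
  exact hσ.2 x

end Pool.Agent.FW
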