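import Pool.Agent.Lib.FW.SpecFr

/-!
# S_FrE: existence of Frobenius elements over a number field
-/

open scoped Pointwise nonZeroDivisors

noncomputable section

namespace Pool.Agent.FW

open Pool.Agent.MuZ NumberField IsDedekindDomain

private lemma FrE_root (l : ℕ) (hl : 0 < l) (x : ZZ) : ∃ y : ZZ, y ^ l = x := by
  obtain ⟨y, hy⟩ := IsAlgClosed.exists_pow_nat_eq (x : Om) hl
  have h1 : IsIntegral ℤ y := by
    have h2 : IsIntegral ℤ (y ^ l) := by
      rw [hy]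
      exact x.2
    exact IsIntegral.of_pow hl h2
  exact ⟨⟨y, h1⟩, Subtype.ext hy⟩

/-- a nonzero prime of `ZZ` contains a nonzero integer -/
private lemma FrE_int (P : Ideal ZZ) (hP0 : P ≠ ⊥) : ∃ n : ℤ, n ≠ 0 ∧ (n : ZZ) ∈ P := by
  obtain ⟨x, hx, hx0⟩ := Submodule.exists_mem_ne_zero_of_ne_bot hP0
  have h1 : IsIntegral ℤ x := by
    have h2 : IsIntegral ℤ (x : Om) := x.2
    exact (isIntegral_algebraMap_iff (A := ZZ) (B := Om) (R := ℤ) Subtype.val_injective).1 h2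
  have h3 := Ideal.comap_ne_bot_of_integral_mem hx0 hx h1
  obtain ⟨n, hn, hn0⟩ := Submodule.exists_mem_ne_zero_of_ne_bot h3
  refine ⟨n, hn0, ?_⟩
  have h4 := Ideal.mem_comap.1 hn
  simpa using h4

private lemma FrE_comap_ne (K : IntermediateField ℚ Om) [NumberField K] (P : Ideal ZZ)
    (hP0 : P ≠ ⊥) : P.comap (iO K) ≠ ⊥ := by
  obtain ⟨n, hn0, hn⟩ := FrE_int P hP0
  intro h
  have h1 : ((n : ℤ) : 𝓞 K) ∈ P.comap (iO K) := by
    rw [Ideal.mem_comap, map_intCast]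
    exact hn
  rw [h, Ideal.mem_bot] at h1
  exact hn0 (by exact_mod_cast h1)

theorem tFrE : S_FrE := by
  intro K _ P hP hP0
  have hpp : (P.comap (iO K)).IsPrime := Ideal.IsPrime.comap (iO K)
  have hp0 : P.comap (iO K) ≠ ⊥ := FrE_comap_ne K P hP0
  have hmax : (P.comap (iO K)).IsMaximal := hpp.isMaximal hp0
  have hfin : Finite (𝓞 K ⧸ P.comap (iO K)) := Ring.HasFiniteQuotients.finiteQuotient hp0
  let _ : Field (𝓞 K ⧸ P.comap (iO K)) := Ideal.Quotient.field _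
  let _ : Fintype (𝓞 K ⧸ P.comap (iO K)) := Fintype.ofFinite _
  obtain ⟨l, hl⟩ := CharP.exists (𝓞 K ⧸ P.comap (iO K))
  obtain ⟨n, hlp, hcard⟩ := FiniteField.card (𝓞 K ⧸ P.comap (iO K)) l
  have hq : Nat.card (𝓞 K ⧸ P.comap (iO K)) = l ^ (n : ℕ) := by
    rw [Nat.card_eq_fintype_card, hcard]
  have hlF : Fact l.Prime := ⟨hlp⟩
  have hlP : (l : ZZ) ∈ P := by
    have h1 : ((l : ℕ) : 𝓞 K ⧸ P.comap (iO K)) = 0 := CharP.cast_eq_zero _ l
    rw [← map_natCast (Ideal.Quotient.mk (P.comap (iO K))), Ideal.Quotient.eq_zero_iff_mem,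
      Ideal.mem_comap, map_natCast] at h1
    exact h1
  have hfer : ∀ y : 𝓞 K, iO K y ^ l ^ (n : ℕ) - iO K y ∈ P := by
    intro y
    have h1 : (Ideal.Quotient.mk (P.comap (iO K)) y) ^ l ^ (n : ℕ) =
        Ideal.Quotient.mk (P.comap (iO K)) y := by
      rw [← hcard]
      exact FiniteField.pow_card _
    rw [← map_pow, Ideal.Quotient.eq, Ideal.mem_comap, map_sub, map_pow] at h1
    exact h1
  rw [show (∃ σ, IsFr K P σ) ↔ ∃ σ ∈ K.fixingSubgroup, ∀ x : ZZ, σ • x - x ^ l ^ (n : ℕ) ∈ P by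
    unfold IsFr
    rw [hq]]
  -- the profinite group
  have hH : IsClosed (K.fixingSubgroup : Set Gal(Om/ℚ)) :=
    InfiniteGalois.fixingSubgroup_isClosed K
  have hcomp : CompactSpace K.fixingSubgroup := isCompact_iff_compactSpace.mp hH.isCompact
  let _ : TopologicalSpace ZZ := ⊥
  have hdisc : DiscreteTopology ZZ := ⟨rfl⟩
  have hcs : ContinuousSMul Gal(Om/ℚ) ZZ :=
    continuousSMul_iff_stabilizer_isOpen.mpr tot_stab
  let A := FixedPoints.subalgebra ℤ ZZ K.fixingSubgroup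
  have hcomm : SMulCommClass K.fixingSubgroup A ZZ := by
    constructor
    intro g a b
    show (g : Gal(Om/ℚ)) • ((a : ZZ) * b) = (a : ZZ) * ((g : Gal(Om/ℚ)) • b)
    rw [smul_mul']
    congr 1
    exact a.2 g
  have hinv : Algebra.IsInvariant A ZZ K.fixingSubgroup := by
    constructor
    intro b hb
    exact ⟨⟨b, hb⟩, rfl⟩
  have hover : P.LiesOver (P.under A) := ⟨rfl⟩
  have hA : ∀ a : A, (a : ZZ) ^ l ^ (n : ℕ) - (a : ZZ) ∈ P := by
    intro a
    have h1 : ((a : ZZ) : Om) ∈ K := by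
      rw [← InfiniteGalois.fixedField_fixingSubgroup K]
      rintro ⟨g, hg⟩
      exact congrArg Subtype.val (a.2 ⟨g, hg⟩)
    have h2 : IsIntegral ℤ (⟨((a : ZZ) : Om), h1⟩ : K) := by
      have h3 : IsIntegral ℤ ((a : ZZ) : Om) := (a : ZZ).2
      exact (isIntegral_algebraMap_iff (A := K) (B := Om) (R := ℤ) Subtype.val_injective).1 h3
    have h4 : iO K ⟨⟨((a : ZZ) : Om), h1⟩, h2⟩ = (a : ZZ) := rfl
    have h5 := hfer ⟨⟨((a : ZZ) : Om), h1⟩, h2⟩
    rw [h4] at h5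
    exact h5
  have hchar : CharP (ZZ ⧸ P) l := by
    have h1 : ((l : ℕ) : ZZ ⧸ P) = 0 := by
      rw [← map_natCast (Ideal.Quotient.mk P), Ideal.Quotient.eq_zero_iff_mem]
      exact hlP
    exact (CharP.charP_iff_prime_eq_zero hlp).2 h1
  -- the Frobenius automorphism of the residue ring
  let φ : (ZZ ⧸ P) →ₐ[A ⧸ P.under A] (ZZ ⧸ P) :=
    { iterateFrobenius (ZZ ⧸ P) l (n : ℕ) with
      commutes' := by
        intro r
        obtain ⟨a, rfl⟩ := Ideal.Quotient.mk_surjective r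
        change (Ideal.Quotient.mk P (a : ZZ)) ^ l ^ (n : ℕ) = Ideal.Quotient.mk P (a : ZZ)
        rw [← map_pow, Ideal.Quotient.eq]
        exact hA a }
  have hφ : ∀ x, φ x = x ^ l ^ (n : ℕ) := fun x => rfl
  have hbij : Function.Bijective φ := by
    constructor
    · intro x y hxy
      rw [hφ, hφ, ← sub_eq_zero, ← sub_pow_char_pow] at hxy
      exact sub_eq_zero.1 (pow_eq_zero_iff (pow_pos hlp.pos _).ne' |>.1 hxy)
    · intro x
      obtain ⟨z, rfl⟩ := Ideal.Quotient.mk_surjective x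
      obtain ⟨y, hy⟩ := FrE_root (l ^ (n : ℕ)) (pow_pos hlp.pos _) z
      exact ⟨Ideal.Quotient.mk P y, by rw [hφ, ← map_pow, hy]⟩
  obtain ⟨g, hg⟩ := Ideal.Quotient.stabilizerHom_surjective_of_profinite (A := A)
    (G := K.fixingSubgroup) (P.under A) P (AlgEquiv.ofBijective φ hbij)
  refine ⟨((g : K.fixingSubgroup) : Gal(Om/ℚ)), (g : K.fixingSubgroup).2, ?_⟩
  intro x
  rw [← Ideal.Quotient.eq, map_pow]
  exact DFunLike.congr_fun hg (Ideal.Quotient.mk P x)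

end Pool.Agent.FW
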