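import Pool.Agent.Lib.FW.SpecFr

/-! The field of an unramified character as an abstract Galois extension. -/

set_option autoImplicit false

open scoped Pointwise nonZeroDivisors

noncomputable section

namespace Pool.Agent.FW

open Pool.Agent.MuZ NumberField IsDedekindDomain

/-- The extension `Ω/ℚ` is Galois (for the default algebra structure). -/
private theorem FrG_isGalois : IsGalois ℚ Om := by
  have h : @IsGalois ℚ _ Om _ (AlgebraicClosure.instAlgebra ℚ) :=
    @IsAlgClosure.isGalois ℚ Om _ _ (AlgebraicClosure.instAlgebra ℚ) _ _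
  have hA : (DivisionRing.toRatAlgebra : Algebra ℚ Om) = AlgebraicClosure.instAlgebra ℚ :=
    Subsingleton.elim _ _
  rw [hA]
  exact h

/-- The field of a character. -/
private theorem FrG_field (p : ℕ) [Fact p.Prime] (K : IntermediateField ℚ Om) [NumberField K]
    (Ls : Set (Subgroup Gal(Om/ℚ))) (g : Gal(Om/ℚ) → ZMod p) (hg : g ∈ VV p Ls K.fixingSubgroup) :
    ∃ M : IntermediateField ℚ Om, K ≤ M ∧ FiniteDimensional ℚ M ∧
      (∀ σ : Gal(Om/ℚ), σ ∈ M.fixingSubgroup ↔ σ ∈ K.fixingSubgroup ∧ g σ = 0) ∧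
      ∀ σ ∈ K.fixingSubgroup, ∀ x ∈ M, σ x ∈ M := by
  have hGal : IsGalois ℚ Om := FrG_isGalois
  obtain ⟨-, h1, ⟨O, hO⟩, -⟩ := hg
  have f1 : g 1 = 0 := by
    have h := h1 1 (one_mem _) 1 (one_mem _)
    rw [mul_one] at h
    simpa using h
  have finv : ∀ a ∈ K.fixingSubgroup, g a⁻¹ = - g a := by
    intro a ha
    have h := h1 a ha a⁻¹ (inv_mem ha)
    rw [mul_inv_cancel, f1] at h
    exact (neg_eq_of_add_eq_zero_right h.symm).symm
  obtain ⟨W, hW⟩ : ∃ W : Subgroup Gal(Om/ℚ), ∀ σ, σ ∈ W ↔ σ ∈ K.fixingSubgroup ∧ g σ = 0 := by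
    refine ⟨{ carrier := {σ | σ ∈ K.fixingSubgroup ∧ g σ = 0}, mul_mem' := ?_, one_mem' := ?_,
              inv_mem' := ?_ }, fun σ => Iff.rfl⟩
    · rintro a b ⟨a1, a2⟩ ⟨b1, b2⟩
      exact ⟨mul_mem a1 b1, by rw [h1 a a1 b b1, a2, b2, add_zero]⟩
    · exact ⟨one_mem _, f1⟩
    · rintro a ⟨a1, a2⟩
      exact ⟨inv_mem a1, by rw [finv a a1, a2, neg_zero]⟩
  have hclosed : IsClosed (W : Set Gal(Om/ℚ)) := by
    rw [← isOpen_compl_iff, isOpen_iff_mem_nhds]
    intro σ hσ
    by_cases hL : σ ∈ K.fixingSubgroup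
    · have hnhds : (fun x => σ⁻¹ * x) ⁻¹' (O : Set Gal(Om/ℚ)) ∈ nhds σ := by
        refine (continuous_const_mul σ⁻¹).continuousAt.preimage_mem_nhds ?_
        rw [inv_mul_cancel]
        exact O.mem_nhds_one
      refine Filter.mem_of_superset hnhds ?_
      intro x hx hxW
      have hxO : σ⁻¹ * x ∈ O := hx
      obtain ⟨x1, x2⟩ := (hW x).1 hxW
      have h5 : g (σ⁻¹ * x) = 0 := hO _ (mul_mem (inv_mem hL) x1) hxO
      rw [h1 _ (inv_mem hL) _ x1, x2, add_zero, finv σ hL] at h5
      exact hσ ((hW σ).2 ⟨hL, neg_eq_zero.1 h5⟩)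
    · have hcl : IsClosed (K.fixingSubgroup : Set Gal(Om/ℚ)) :=
        InfiniteGalois.fixingSubgroup_isClosed K
      refine Filter.mem_of_superset (hcl.isOpen_compl.mem_nhds hL) ?_
      intro x hx hxW
      exact hx ((hW x).1 hxW).1
  have hM : (IntermediateField.fixedField W).fixingSubgroup = W :=
    InfiniteGalois.fixingSubgroup_fixedField (k := ℚ) (K := Om) ⟨W, hclosed⟩
  have hfix : ∀ σ ∈ W, ∀ x ∈ IntermediateField.fixedField W, σ x = x := by
    intro σ hσ x hx
    exact (IntermediateField.mem_fixedField_iff W x).1 hx σ hσ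
  refine ⟨IntermediateField.fixedField W, ?_, ?_, fun σ => by rw [hM, hW], ?_⟩
  · intro x hx
    rw [IntermediateField.mem_fixedField_iff]
    intro σ hσ
    exact (IntermediateField.mem_fixingSubgroup_iff K σ).1 ((hW σ).1 hσ).1 x hx
  · obtain ⟨E, hE, hEO⟩ :=
      (krullTopology_mem_nhds_one_iff ℚ Om (O : Set Gal(Om/ℚ))).1 O.mem_nhds_one
    have hle : IntermediateField.fixedField W ≤ K ⊔ E := by
      intro x hx
      rw [← InfiniteGalois.fixedField_fixingSubgroup (K ⊔ E), IntermediateField.mem_fixedField_iff]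
      intro σ hσ
      have e1 : σ ∈ K.fixingSubgroup :=
        IntermediateField.fixingSubgroup_antitone (le_sup_left : K ≤ K ⊔ E) hσ
      have e2 : σ ∈ E.fixingSubgroup :=
        IntermediateField.fixingSubgroup_antitone (le_sup_right : E ≤ K ⊔ E) hσ
      exact hfix σ ((hW σ).2 ⟨e1, hO σ e1 (hEO e2)⟩) x hx
    have : FiniteDimensional ℚ E := hE
    have : FiniteDimensional ℚ ↥(K ⊔ E) := IntermediateField.finiteDimensional_sup K E
    exact Submodule.finiteDimensional_of_le
      (S₁ := (IntermediateField.fixedField W).toSubmodule) (S₂ := (K ⊔ E).toSubmodule) hle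
  · intro σ hσ x hx
    rw [IntermediateField.mem_fixedField_iff]
    intro τ hτ
    obtain ⟨t1, t2⟩ := (hW τ).1 hτ
    have hmem : σ⁻¹ * τ * σ ∈ W := by
      refine (hW _).2 ⟨mul_mem (mul_mem (inv_mem hσ) t1) hσ, ?_⟩
      rw [h1 _ (mul_mem (inv_mem hσ) t1) _ hσ, h1 _ (inv_mem hσ) _ t1, t2, finv σ hσ]
      ring
    have h5 := hfix _ hmem x hx
    have h6 : τ (σ x) = σ ((σ⁻¹ * τ * σ) x) := by
      rw [← AlgEquiv.mul_apply, ← AlgEquiv.mul_apply]
      congr 1
      group
    rw [h6, h5]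

theorem tFrG : S_FrG := by
  intro hIne p hp K hNF g hg hg0
  obtain ⟨M, hKM, hMfin, hker, hMst⟩ := FrG_field p K Inr g hg
  obtain ⟨hg1, hg2, -, hg4⟩ := hg
  have hNFM : NumberField M := ⟨⟩
  have : Normal K Om := Normal.tower_top_of_normal ℚ K Om
  have : IsGalois K Om := ⟨⟩
  let _ : Algebra K M := incA hKM
  have hST : IsScalarTower K M Om := IsScalarTower.of_algebraMap_eq fun x => rfl
  let L : IntermediateField K Om := IntermediateField.extendScalars hKM
  have hL : ∀ x : Om, x ∈ L ↔ x ∈ M := fun x => IntermediateField.mem_extendScalars hKM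
  let e : L ≃ₐ[K] M :=
    { toFun := fun x => ⟨(x : Om), (hL _).1 x.2⟩
      invFun := fun x => ⟨(x : Om), (hL _).2 x.2⟩
      left_inv := fun _ => rfl
      right_inv := fun _ => rfl
      map_mul' := fun _ _ => rfl
      map_add' := fun _ _ => rfl
      commutes' := fun _ => rfl }
  have hres : ∀ σ : Gal(Om/K), (σ.restrictScalars ℚ : Gal(Om/ℚ)) ∈ K.fixingSubgroup := by
    intro σ
    rw [IntermediateField.mem_fixingSubgroup_iff]
    intro x hx
    exact σ.commutes ⟨x, hx⟩
  have hNorm : Normal K L := by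
    rw [IntermediateField.normal_iff_forall_map_le']
    rintro σ x ⟨y, hy, rfl⟩
    exact (hL _).2 (hMst _ (hres σ) _ ((hL y).1 hy))
  have hGal : IsGalois K L := ⟨⟩
  have hGalM : IsGalois K M := IsGalois.of_algEquiv e
  have hdeg : Module.finrank K L = p := by
    rw [IntermediateField.finrank_eq_fixingSubgroup_index Om L]
    let φ : Gal(Om/K) →* Multiplicative (ZMod p) :=
      { toFun := fun σ => Multiplicative.ofAdd (g (σ.restrictScalars ℚ))
        map_one' := by
          have h1 := hg2 1 K.fixingSubgroup.one_mem 1 K.fixingSubgroup.one_mem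
          have h2 : g 1 = 0 := by
            rw [mul_one] at h1
            exact left_eq_add.1 h1
          exact congrArg Multiplicative.ofAdd h2
        map_mul' := fun σ τ => congrArg Multiplicative.ofAdd (hg2 _ (hres σ) _ (hres τ)) }
    have hφ : φ.ker = L.fixingSubgroup := by
      ext σ
      rw [MonoidHom.mem_ker, IntermediateField.mem_fixingSubgroup_iff]
      have h1 : (φ σ = 1) ↔ g (σ.restrictScalars ℚ) = 0 := Iff.rfl
      rw [h1]
      have h2 := hker (σ.restrictScalars ℚ)
      rw [IntermediateField.mem_fixingSubgroup_iff] at h2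
      constructor
      · intro h x hx
        exact h2.2 ⟨hres σ, h⟩ x ((hL x).1 hx)
      · intro h
        exact (h2.1 fun x hx => h x ((hL x).2 hx)).2
    rw [← hφ, Subgroup.index_ker]
    have hcard : Nat.card (Multiplicative (ZMod p)) = p := by
      rw [Nat.card_congr Multiplicative.toAdd, Nat.card_zmod]
    have htop : φ.range = ⊤ := by
      have : Fact (Nat.card (Multiplicative (ZMod p))).Prime := ⟨by rw [hcard]; exact hp.out⟩
      rcases Subgroup.eq_bot_or_eq_top_of_prime_card φ.range with h | h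
      · exfalso
        apply hg0
        funext τ
        by_cases hτ : τ ∈ K.fixingSubgroup
        · let τ' : Gal(Om/K) := IntermediateField.fixingSubgroupEquiv K ⟨τ, hτ⟩
          have h1 : φ τ' ∈ φ.range := ⟨τ', rfl⟩
          rw [h, Subgroup.mem_bot] at h1
          have h2 : (τ'.restrictScalars ℚ : Gal(Om/ℚ)) = τ := by
            ext x
            rfl
          have h3 : g (τ'.restrictScalars ℚ) = 0 := h1
          rw [h2] at h3
          exact h3
        · exact hg1 τ hτ
      · exact h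
    rw [htop, Subgroup.card_top, hcard]
  have hdegM : Module.finrank K M = p := by
    rw [← e.toLinearEquiv.finrank_eq, hdeg]
  have hlift : ∀ s : Gal(M/K), ∃ σ ∈ K.fixingSubgroup, ∀ x : M,
      σ (x : Om) = ((s x : M) : Om) := fun s =>
    ⟨(s.liftNormal Om).restrictScalars ℚ, hres _, fun x => s.liftNormal_commutes Om x⟩
  have hin : TrivIn K M := by
    intro P0 hP0 hP0b s hs
    let _ : Algebra (𝓞 M) ZZ := (iO M).toAlgebra
    have : IsScalarTower ℤ (𝓞 M) ZZ := IsScalarTower.of_algebraMap_eq fun x => by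
      simp
    have : Algebra.IsIntegral (𝓞 M) ZZ := Algebra.IsIntegral.tower_top ℤ
    have := hP0
    have hinj : Function.Injective (iO M) := by
      intro x y h
      have h1 : ((x : M) : Om) = ((y : M) : Om) := congrArg (fun z : ZZ => (z : Om)) h
      exact NumberField.RingOfIntegers.ext (Subtype.ext h1)
    have hcom : (⊥ : Ideal ZZ).comap (algebraMap (𝓞 M) ZZ) = ⊥ := by
      rw [← RingHom.ker_eq_comap_bot]
      exact (RingHom.injective_iff_ker_eq_bot _).1 hinj
    obtain ⟨P, -, hP, hPc⟩ := Ideal.exists_ideal_over_prime_of_isIntegral P0 (⊥ : Ideal ZZ)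
      (by rw [hcom]; exact bot_le)
    have hPb : P ≠ ⊥ := by
      rintro rfl
      exact hP0b (by rw [← hPc, hcom])
    obtain ⟨σ, hσK, hσ⟩ := hlift s
    obtain ⟨ρ, hρ1, hρ2, hρ3⟩ := hIne K M hMfin hKM P hP hPb σ hσK
      (fun x hx => hMst _ hσK x hx) (by
        intro y hy
        have hint : IsIntegral ℤ (⟨(y : Om), hy⟩ : M) := by
          have h1 : IsIntegral ℤ (algebraMap M Om ⟨(y : Om), hy⟩) := y.2
          exact (isIntegral_algHom_iff ((algebraMap M Om).toIntAlgHom)
            (algebraMap M Om).injective).1 h1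
        obtain ⟨x, rfl⟩ : ∃ x : 𝓞 M, iO M x = y := ⟨⟨⟨(y : Om), hy⟩, hint⟩, Subtype.ext rfl⟩
        have h1 := hs x
        rw [← hPc, Ideal.mem_comap, map_sub] at h1
        have h2 : algebraMap (𝓞 M) ZZ (NumberField.RingOfIntegers.mapRingHom (s : M →+* M) x) =
            σ • iO M x := by
          refine Subtype.ext ?_
          exact (hσ (x : M)).symm
        rw [h2] at h1
        exact h1)
    have hgρ : g ρ = 0 := hg4 _ ⟨P, hP, hPb, rfl⟩ ρ hρ1 hρ2
    have hρM := (hker ρ).2 ⟨hρ2, hgρ⟩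
    rw [IntermediateField.mem_fixingSubgroup_iff] at hρM
    apply AlgEquiv.ext
    intro x
    apply Subtype.ext
    have h1 := hρ3 (x : Om) x.2
    rw [hρM _ x.2] at h1
    have h2 : σ (x : Om) = ((s x : M) : Om) := hσ x
    rw [h2] at h1
    exact h1.symm
  exact ⟨M, hKM, hNFM, hker, hMst, hGalM, hdegM, hin, hlift⟩

end Pool.Agent.FW
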