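import Pool.Agent.Lib.FW.SpecFr

/-!
# FW, stage 2: the Artin element of an ideal prime to `m` (helper73)
-/

open scoped Pointwise nonZeroDivisors

noncomputable section

namespace Pool.Agent.FW

open Pool.Agent.MuZ NumberField IsDedekindDomain

private theorem FrI_fin {p : ℕ} (K : Type) [Field K] [NumberField K]
    (a : HeightOneSpectrum (𝓞 K) → ZMod p) (I : FractionalIdeal (𝓞 K)⁰ K) :
    (Function.support fun v : HeightOneSpectrum (𝓞 K) =>
      ((FractionalIdeal.count K v I : ℤ) : ZMod p) * a v).Finite := by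
  refine (FractionalIdeal.finite_factors (K := K) I).subset fun v hv => ?_
  simp only [Function.mem_support, ne_eq, Set.mem_compl_iff, Set.mem_ofPred_eq] at hv ⊢
  intro h
  exact hv (by rw [h, Int.cast_zero, zero_mul])

private theorem FrI_one {p : ℕ} (K : Type) [Field K] [NumberField K]
    (a : HeightOneSpectrum (𝓞 K) → ZMod p) (v : HeightOneSpectrum (𝓞 K)) :
    ∑ᶠ w : HeightOneSpectrum (𝓞 K),
      ((FractionalIdeal.count K w (v.asIdeal : FractionalIdeal (𝓞 K)⁰ K) : ℤ) : ZMod p) * a w =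
    a v := by
  rw [finsum_eq_single _ v]
  · rw [FractionalIdeal.count_self, Int.cast_one, one_mul]
  · intro w hw
    rw [FractionalIdeal.count_maximal_coprime K w hw.symm, Int.cast_zero, zero_mul]

private theorem FrI_mul {p : ℕ} (K : Type) [Field K] [NumberField K]
    (a : HeightOneSpectrum (𝓞 K) → ZMod p) (I J : Ideal (𝓞 K)) (hI : I ≠ ⊥) (hJ : J ≠ ⊥) :
    ∑ᶠ w : HeightOneSpectrum (𝓞 K),
      ((FractionalIdeal.count K w ((I * J : Ideal (𝓞 K)) : FractionalIdeal (𝓞 K)⁰ K) : ℤ) :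
        ZMod p) * a w =
    (∑ᶠ w : HeightOneSpectrum (𝓞 K),
      ((FractionalIdeal.count K w (I : FractionalIdeal (𝓞 K)⁰ K) : ℤ) : ZMod p) * a w) +
    ∑ᶠ w : HeightOneSpectrum (𝓞 K),
      ((FractionalIdeal.count K w (J : FractionalIdeal (𝓞 K)⁰ K) : ℤ) : ZMod p) * a w := by
  rw [← finsum_add_distrib (FrI_fin K a _) (FrI_fin K a _)]
  refine finsum_congr fun w => ?_
  rw [FractionalIdeal.coeIdeal_mul, FractionalIdeal.count_mul K w
    (FractionalIdeal.coeIdeal_ne_zero.2 hI) (FractionalIdeal.coeIdeal_ne_zero.2 hJ), Int.cast_add,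
    add_mul]

theorem tFrI (h1 : S_Lie) (h2 : S_FrE) (h3 : S_FrM) : S_FrI := by
  intro p _ K _ g hg m hm a ha I
  have hadd := hg.2.1
  have hg1 : g 1 = 0 := by
    have h := hadd 1 K.fixingSubgroup.one_mem 1 K.fixingSubgroup.one_mem
    rw [one_mul] at h
    exact left_eq_add.1 h
  induction I using UniqueFactorizationMonoid.induction_on_prime with
  | h₁ => exact fun h => absurd rfl h
  | h₂ I hI =>
    intro _ _
    rw [Ideal.isUnit_iff] at hI
    subst hI
    refine ⟨1, K.fixingSubgroup.one_mem, fun z _ => ?_, ?_⟩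
    · rw [Ideal.absNorm_top, pow_one]
      rfl
    · rw [hg1, FractionalIdeal.coeIdeal_top]
      refine (finsum_eq_zero_of_forall_eq_zero fun v => ?_).symm
      rw [FractionalIdeal.count_one, Int.cast_zero, zero_mul]
  | h₃ J q hJ hq ih =>
    intro _ hm'
    have hqb : q ≠ ⊥ := hq.ne_zero
    let v : HeightOneSpectrum (𝓞 K) := ⟨q, Ideal.isPrime_of_prime hq, hqb⟩
    have hmv : (m : 𝓞 K) ∉ v.asIdeal := fun h => hm' v h Ideal.mul_le_left
    obtain ⟨σJ, hσJ, hJz, hJg⟩ := ih hJ fun w hw hle => hm' w hw (Ideal.mul_le_right.trans hle)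
    obtain ⟨P, hP⟩ := h1.1 K v
    obtain ⟨σv, hσv⟩ := h2 K P hP.1 hP.2.1
    have hav := ha v P σv hmv hP hσv
    have hmP : (m : ZZ) ∉ P := by
      intro h
      apply hmv
      rw [hP.2.2, Ideal.mem_comap, map_natCast]
      exact h
    have hN : Nat.card (𝓞 K ⧸ P.comap (iO K)) = Ideal.absNorm q := by
      rw [← hP.2.2, Ideal.absNorm_apply, Submodule.cardQuot_apply]
    refine ⟨σv * σJ, K.fixingSubgroup.mul_mem hσv.1 hσJ, fun z hz => ?_, ?_⟩
    · rw [AlgEquiv.mul_apply, hJz z hz, map_pow, h3 K P hP.1 σv hσv m hmP z hz, hN, map_mul,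
        pow_mul]
    · rw [hadd σv hσv.1 σJ hσJ, hJg, ← hav, FrI_mul K a q J hqb hJ]
      congr 1
      exact (FrI_one K a v).symm

end Pool.Agent.FW
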