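import Pool.Agent.Lib.FW.SpecFr

/-!
# S_FrM: Frobenius elements act on the roots of unity of order prime to `P` as the power `N P`
-/

open scoped Pointwise nonZeroDivisors

noncomputable section

namespace Pool.Agent.FW

open Pool.Agent.MuZ NumberField IsDedekindDomain

/-- an `m`-th root of unity which is `1` modulo `P` is `1`, if `m` is not in `P` -/
private theorem FrM_root_one {R : Type*} [CommRing R] [IsDomain R] {P : Ideal R}
    {m : ℕ} (hm : (m : R) ∉ P) {y : R} (h1 : y ^ m = 1) (h2 : y - 1 ∈ P) : y = 1 := by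
  by_contra hne
  have e1 : (∑ i ∈ Finset.range m, y ^ i) * (y - 1) = 0 := by
    rw [geom_sum_mul, h1, sub_self]
  have e2 : (∑ i ∈ Finset.range m, y ^ i) = 0 := by
    rcases mul_eq_zero.1 e1 with h | h
    · exact h
    · exact absurd (sub_eq_zero.1 h) hne
  have e3 : (∑ i ∈ Finset.range m, (y ^ i - 1)) ∈ P := by
    refine Ideal.sum_mem P (fun i _ => ?_)
    have hd : y - 1 ∣ y ^ i - 1 := by
      have := sub_dvd_pow_sub_pow y 1 i
      rwa [one_pow] at this
    exact Ideal.mem_of_dvd P hd h2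
  rw [Finset.sum_sub_distrib, e2, Finset.sum_const, Finset.card_range, zero_sub,
    Ideal.neg_mem_iff, nsmul_eq_mul, mul_one] at e3
  exact hm e3

theorem tFrM : S_FrM := by
  intro K P hP σ hσ m hm z hz
  have hm0 : 0 < m := by
    rcases Nat.eq_zero_or_pos m with h | h
    · exfalso
      apply hm
      rw [h, Nat.cast_zero]
      exact P.zero_mem
    · exact h
  have hint : IsIntegral ℤ z := by
    refine IsIntegral.of_pow hm0 ?_
    rw [hz]
    exact isIntegral_one
  set q : ℕ := Nat.card (𝓞 K ⧸ P.comap (iO K)) with hq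
  set x : ZZ := ⟨z, hint⟩ with hx
  have hx1 : x ^ m = 1 := Subtype.ext hz
  have hs : σ • x - x ^ q ∈ P := hσ.2 x
  have hs1 : (σ • x) ^ m = 1 := by
    rw [← smul_pow', hx1, smul_one]
  have hu1 : (x ^ q) ^ m = 1 := by
    rw [← pow_mul, mul_comm, pow_mul, hx1, one_pow]
  have huu : x ^ q * (x ^ q) ^ (m - 1) = 1 := by
    rw [← pow_succ', Nat.sub_add_cancel hm0, hu1]
  have h1 : (σ • x * (x ^ q) ^ (m - 1)) ^ m = 1 := by
    rw [mul_pow, hs1, one_mul, ← pow_mul, mul_comm (m - 1), pow_mul, hu1, one_pow]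
  have h2 : σ • x * (x ^ q) ^ (m - 1) - 1 ∈ P := by
    have e : σ • x * (x ^ q) ^ (m - 1) - 1 = (σ • x - x ^ q) * (x ^ q) ^ (m - 1) := by
      rw [sub_mul, huu]
    rw [e]
    exact P.mul_mem_right _ hs
  have h3 : σ • x * (x ^ q) ^ (m - 1) = 1 := FrM_root_one hm h1 h2
  have h4 : σ • x = x ^ q := by
    calc σ • x = σ • x * (x ^ q * (x ^ q) ^ (m - 1)) := by rw [huu, mul_one]
      _ = (σ • x * (x ^ q) ^ (m - 1)) * x ^ q := by ring
      _ = x ^ q := by rw [h3, one_mul]
  have h5 := congrArg Subtype.val h4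
  exact h5

end Pool.Agent.FW
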