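import Pool.Agent.Lib.FW.SpecFr

/-!
# FW, stage 2: splitting in the field of a character (helper73)
-/

open scoped Pointwise nonZeroDivisors

noncomputable section

namespace Pool.Agent.FW

open Pool.Agent.MuZ NumberField IsDedekindDomain

set_option linter.deprecated false in
private theorem FrS_pow (K M : IntermediateField ℚ Om) [NumberField K] [NumberField M]
    (h : K ≤ M) (v : HeightOneSpectrum (𝓞 K)) (w : HeightOneSpectrum (𝓞 M)) (P : Ideal ZZ)
    (hv : Ab K P v) (hw : Ab M P w) :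
    ∃ f : ℕ, (letI := incA h
      f ≤ Module.finrank K M) ∧
      Nat.card (𝓞 M ⧸ w.asIdeal) = Nat.card (𝓞 K ⧸ v.asIdeal) ^ f := by
  let := incA h
  have hfd : FiniteDimensional K M := Module.Finite.of_restrictScalars_finite ℚ K M
  have hlo : w.asIdeal.LiesOver v.asIdeal := by
    constructor
    rw [hw.2.2, Ideal.under_def, Ideal.comap_comap]
    exact hv.2.2
  have hvp := v.isPrime
  have hwp := w.isPrime
  have hvm : v.asIdeal.IsMaximal := v.isMaximal
  have hinj : Function.Injective (algebraMap (𝓞 K) (𝓞 M)) :=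
    FaithfulSMul.algebraMap_injective (𝓞 K) (𝓞 M)
  have hns : NoZeroSMulDivisors (𝓞 K) (𝓞 M) := ⟨fun {c x} hc => by
    rw [Algebra.smul_def] at hc
    exact (mul_eq_zero.1 hc).imp (fun h0 => hinj (h0.trans (map_zero _).symm)) id⟩
  refine ⟨v.asIdeal.inertiaDeg' w.asIdeal, ?_, ?_⟩
  · exact Ideal.inertiaDeg_le_finrank (𝓞 M) K M w.asIdeal v.ne_bot
  · have h1 := Ideal.absNorm_eq_pow_inertiaDeg'_of_liesOver w.asIdeal v.asIdeal hvp v.ne_bot
    rwa [Ideal.absNorm_apply, Submodule.cardQuot_apply, Ideal.absNorm_apply,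
      Submodule.cardQuot_apply] at h1

theorem tFrS (h1 : S_Lie) (h2 : S_FrE) (h3 : S_FrU) (h4 : S_FrC) : S_FrS := by
  intro p _ K M _ _ h hpM g hg hM v w P hv hw
  have hadd := hg.2.1
  have hg1 : g 1 = 0 := by
    have h := hadd 1 K.fixingSubgroup.one_mem 1 K.fixingSubgroup.one_mem
    rw [one_mul] at h
    exact left_eq_add.1 h
  obtain ⟨σ, hσ⟩ := h2 K P hv.1 hv.2.1
  have c2 := h4 K M h P hv.1 hv.2.1
  constructor
  · rintro ⟨P', σ', hP', hσ', hg0⟩
    have h5 : g σ = 0 := ((h3 p K g hg).1 v P P' σ σ' hv hP' hσ hσ').trans hg0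
    have h6 := (c2 σ hσ ((hM σ).2 ⟨hσ.1, h5⟩)).1
    rw [hw.2.2, hv.2.2]
    exact h6
  · intro hns
    have h5 : g σ ≠ 0 := fun h5 => hns ⟨P, σ, hv, hσ, h5⟩
    obtain ⟨f, hf0', hf⟩ := h1.2.2 K M h P v w hv hw
    have hf0 : 0 < f := Nat.pos_of_ne_zero hf0'
    obtain ⟨τ, hτ⟩ := h2 M P hv.1 hv.2.1
    have hτK := (hM τ).1 hτ.1
    have h7 := (h3 p K g hg).2 M h P v w σ τ f hv hw hσ hτ hf
    rw [hτK.2] at h7
    have h8 : p ∣ f := (ZMod.natCast_eq_zero_iff f p).1 ((mul_eq_zero.1 h7.symm).resolve_right h5)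
    obtain ⟨f', hf', hcard⟩ := FrS_pow K M h v w P hv hw
    have h9 : Nat.card (𝓞 K ⧸ v.asIdeal) ^ f' = Nat.card (𝓞 K ⧸ v.asIdeal) ^ f := by
      rw [← hcard]
      exact hf
    have h10 : 1 < Nat.card (𝓞 K ⧸ v.asIdeal) := by
      rw [← Submodule.cardQuot_apply, ← Ideal.absNorm_apply]
      have h11 : Ideal.absNorm v.asIdeal ≠ 0 := by
        rw [Ne, Ideal.absNorm_eq_zero_iff]
        exact v.ne_bot
      have h12 : Ideal.absNorm v.asIdeal ≠ 1 := by
        rw [Ne, Ideal.absNorm_eq_one_iff]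
        exact v.isPrime.ne_top
      omega
    have h13 : f' = f := Nat.pow_right_injective h10 h9
    have h14 : f ≤ p := by
      rw [← h13]
      exact hf'.trans hpM.le
    have h15 : f = p := le_antisymm h14 (Nat.le_of_dvd hf0 h8)
    rw [hcard, h13, h15]

end Pool.Agent.FW
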